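import Pool.Agent.SPH.F4.Gcl
import Pool.Agent.SPH.Eps
import Pool.Agent.SPH.Word
import Pool.Agent.SPH.Tv
import Pool.Agent.SPH.OutF

/-!
# Project SPH: the automorphisms of the Artin group of type `F4`
-/

set_option maxRecDepth 10000

namespace Pool.Agent.SPH.F4

open Pool.Agent.Helper7.AG Pool.Agent.HT

/-- the Artin group of type `F4` -/
abbrev FA : Type := Artin CoxeterMatrix.F₄

/-- the standard generators -/
def gs (i : Fin 4) : FA := PresentedGroup.of i

/-- the product of the four generators -/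
def gd : FA := gs 0 * gs 1 * gs 2 * gs 3

theorem k1 : td.chk1 = true := by decide +kernel

theorem kw : td.witc 1 = true := by decide +kernel

theorem kb3 : td.blkc 3 43 2 = true := by decide +kernel

theorem kt2 : td.twoc 2 = true := by decide +kernel

theorem ki2 : td.inT 2 46 = true := by decide +kernel

theorem kf2 : Nat.beq (td.tau 46) 46 = false := by decide +kernel

theorem kl2 : TD.eqL (td.lsT 2) [76, 60, 56, 46] = true := by decide +kernel

theorem kp : AD.prc td 0 (List.ofFn ad.gi) = true := by decide +kernel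

/-- the element with a given number -/
def el (i : ℕ) (h : i < 105) : TD.El td_ok := ⟨i, h⟩

/-- the words in the relation: `y δ^k r y δ^k r r` and `r r y δ^k r y δ^k` (`r` is number 43, `δ`
is number 104) -/
def W1 (y k : ℕ) : List ℕ :=
  y :: (List.replicate k 104 ++ 43 :: y :: (List.replicate k 104 ++ [43, 43]))

/-- see `W1` -/
def W2 (y k : ℕ) : List ℕ :=
  43 :: 43 :: y :: (List.replicate k 104 ++ 43 :: y :: List.replicate k 104)

theorem kr0 : td.wc (W1 46 0) (W2 46 0) = true := by decide +kernel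

theorem kr : (allL [46, 76, 60, 56] fun y => allB 6 fun k =>
    cond (Nat.beq k 0) true (td.wn (W1 y k) (W2 y k))) = true := by decide +kernel

/-- the class of an atom -/
def cls (t : ℕ) : ℤ := if CD.bit 6710886 t = true then 1 else -1

theorem kclsb : (allB 256 fun t => cond (Nat.beq (CD.rw ad.R1 t) 0) true (allB 256 fun u =>
    cond (CD.bit (CD.rw ad.R1 t) u) (cond (CD.bit 6710886 t) (CD.bit 6710886 (ad.d t u))
      (cond (CD.bit 6710886 (ad.d t u)) false true)) true)) = true := by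
  decide +kernel

/-- from `kclsb` and `CD.bit_rw` -/
theorem kcls : ∀ t u, t < 256 → u < 256 → CD.bit ad.R1 (CD.pc t u) = true →
    cls t = cls (ad.d t u) := by
  intro t u ht hu hb
  have h1 := allB_spec kclsb t ht
  rw [← CD.bit_rw hu] at hb
  have h2 : Nat.beq (CD.rw ad.R1 t) 0 = false := by
    cases h3 : Nat.beq (CD.rw ad.R1 t) 0 with
    | false => rfl
    | true =>
      have h4 := Nat.eq_of_beq_eq_true h3
      rw [h4, CD.bit_zero] at hb
      exact absurd hb (by simp)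
  simp only [h2, cond_false] at h1
  have h5 := allB_spec h1 u hu
  simp only [hb, cond_true] at h5
  unfold cls
  generalize CD.bit 6710886 t = x at h5 ⊢
  generalize CD.bit 6710886 (ad.d t u) = y at h5 ⊢
  cases x <;> cases y <;> simp_all

/-- the abelian invariant `κ`: `exists_lift` to `Multiplicative ℤ` -/
theorem exists_kap : ∃ κ : FA →* Multiplicative ℤ, κ (gs 0) = Multiplicative.ofAdd 1 ∧
    κ (gs 1) = Multiplicative.ofAdd 1 ∧ κ (gs 2) = Multiplicative.ofAdd (-1) ∧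
    κ (gs 3) = Multiplicative.ofAdd (-1) := by
  obtain ⟨κ, hκ⟩ := exists_lift (M := CoxeterMatrix.F₄) (G := Multiplicative ℤ) M_bd
    (fun i => Multiplicative.ofAdd (if i.1 < 2 then (1 : ℤ) else -1)) (by
      intro s t _
      have h3 : CoxeterMatrix.F₄ s t = 3 → (s.1 < 2 ↔ t.1 < 2) := by
        fin_cases s <;> fin_cases t <;> decide +kernel
      have h5 : CoxeterMatrix.F₄ s t ≠ 5 := by
        fin_cases s <;> fin_cases t <;> decide +kernel
      refine ⟨fun _ => mul_comm _ _, fun h => ?_, fun _ => ?_, fun h => absurd h h5⟩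
      · have h4 := h3 h
        by_cases h6 : s.1 < 2
        · rw [if_pos h6, if_pos (h4.1 h6)]
        · rw [if_neg h6, if_neg (fun q => h6 (h4.2 q))]
      · simp only [mul_assoc]
        rw [mul_comm]
        simp only [mul_assoc])
  refine ⟨κ, ?_, ?_, ?_, ?_⟩
  · exact hκ 0
  · exact hκ 1
  · exact hκ 2
  · exact hκ 3

/-- everything about the dual Garside structure of `FA` in one statement -/
theorem frame : ∃ (P : Pre (AD.EE ad_ok) FA) (L : Lattice FA)
    (F : @Frame _ _ _ (AD.EE ad_ok) FA _ L),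
    (∀ s, F.g s = P.g s) ∧ (∀ u, F.len u = P.ln u) ∧ F.δ = gd ∧
    (∀ (k : Fin 4) (x : AD.SS ad_ok), x.i = ad.gi k → F.g x = gs k) ∧
    ∀ k : Fin 4, F.len (gs k) = 1 := by
  obtain ⟨P, hPg, hPl⟩ := AD.exists_pre ad_ok
  obtain ⟨L, F, hg, hl⟩ := P.exists_frame
  have hg' : ∀ (k : Fin 4) (x : AD.SS ad_ok), x.i = ad.gi k →
      F.g x = (PresentedGroup.of k : FA) := by
    intro k x hx
    rw [hg]
    exact hPg k x hx
  refine ⟨P, L, F, hg, hl, ?_, hg', ?_⟩
  · have h := @AD.prod_of ad ad_ok L F hg' kp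
    rw [← h]
    show (List.ofFn fun k : Fin 4 => (PresentedGroup.of k : FA)).prod = gd
    simp [List.ofFn_succ, gd, gs, mul_assoc]
  · intro k
    rw [hl]
    exact hPl k

private theorem fh_W1 (P : Pre (AD.EE ad_ok) FA) (y k : ℕ) :
    ((W1 y k).map (TD.gN P)).prod = TD.gN P y * TD.gN P 104 ^ k * TD.gN P 43 *
      (TD.gN P y * TD.gN P 104 ^ k) * (TD.gN P 43 * TD.gN P 43) := by
  simp [W1, mul_assoc]

private theorem fh_W2 (P : Pre (AD.EE ad_ok) FA) (y k : ℕ) :
    ((W2 y k).map (TD.gN P)).prod = TD.gN P 43 * TD.gN P 43 *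
      (TD.gN P y * TD.gN P 104 ^ k * TD.gN P 43 * (TD.gN P y * TD.gN P 104 ^ k)) := by
  simp [W2, mul_assoc]

private theorem fh_N : ad.D.N = 105 := rfl

private theorem fh_gN (P : Pre (AD.EE ad_ok) FA) (x : AD.SS ad_ok) : TD.gN P x.i = P.g x := by
  unfold TD.gN
  rw [dif_pos x.lt]

private theorem fh_shz {F : Germ (AD.SS ad_ok)} {x : AD.SS ad_ok} (h2 : F.shz 2 x = x) (q : ℤ) :
    F.shz (2 * q) x = x := by
  have hneg : F.shz (-2) x = x := by
    have h1 := F.shz_add (-2) 2 x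
    rw [h2, neg_add_cancel, F.shz_zero] at h1
    exact h1.symm
  induction q using Int.induction_on with
  | zero => rw [mul_zero, F.shz_zero]
  | succ q ih =>
    rw [show (2 : ℤ) * ((q : ℤ) + 1) = 2 * (q : ℤ) + 2 by ring, F.shz_add, h2, ih]
  | pred q ih =>
    rw [show (2 : ℤ) * (-(q : ℤ) - 1) = 2 * (-(q : ℤ)) + -2 by ring, F.shz_add, hneg, ih]

private theorem fh_fa (j : ℤ) (hj : (AD.EE ad_ok).shz j (el 46 (by norm_num)) =
    el 46 (by norm_num)) : (2 : ℤ) ∣ j := by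
  have hmem : (el 46 (by norm_num) : AD.SS ad_ok) ∈ (AD.EE ad_ok).T 2 := TD.mem_T_iff.2 ki2
  have h2 : (AD.EE ad_ok).shz 2 (el 46 (by norm_num)) = el 46 (by norm_num) := by
    have e := hmem.1
    rw [Function.iterate_succ_apply', Function.iterate_one] at e
    have e1 : (2 : ℤ) = (0 + 1) + 1 := by norm_num
    rw [e1, (AD.EE ad_ok).shz_succ, (AD.EE ad_ok).shz_succ, (AD.EE ad_ok).shz_zero]
    exact e
  rcases Int.even_or_odd' j with ⟨q, hq | hq⟩
  · exact ⟨q, hq⟩
  · exfalso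
    have e2 : j = (0 + 1) + 2 * q := by rw [hq]; ring
    rw [e2, (AD.EE ad_ok).shz_add, fh_shz h2, (AD.EE ad_ok).shz_succ,
      (AD.EE ad_ok).shz_zero] at hj
    have e3 := congrArg TD.El.i hj
    rw [TD.El.tau_i] at e3
    have e4 : Nat.beq (td.tau 46) 46 = true := by
      rw [show td.tau 46 = 46 from e3]
      rfl
    rw [kf2] at e4
    exact absurd e4 (by decide)

private theorem fh_hU (L : Lattice FA) (F : @Frame _ _ _ (AD.EE ad_ok) FA _ L)
    (hg : ∀ (k : Fin 4) (x : AD.SS ad_ok), x.i = ad.gi k → F.g x = gs k) (u : FA) :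
    u ∈ F.Cn 3 ⊔ F.Cn 2 ∨ u * (gs 0)⁻¹ ∈ F.Cn 3 ⊔ F.Cn 2 :=
  @AD.gen_two ad ad_ok L F hg 3 2 _ _ (0 : Fin 4) gl gl_run gl_fin u

theorem kq46 : Nat.beq (td.q 1 46) 17 = true := by decide +kernel

theorem kle46 : td.le 1 46 = true := by decide +kernel

/-- The hypotheses `F4H` for `a = el 46`, `r = el 43`, `s = gs 0`: `tau_triv`, `exists_moved`,
`blk_of`, `two_of`, `kt_of`, `gen_two`, the relations by `wc_sound` and `wn_sound` (`T 2` is
`{46, 56, 60, 76}` by `kl2` and `mem_T_iff`), `κ` of `g (el 46)` is `2`: `46` is the product of two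
atoms with `cls = 1` (`hom_atoms` with `Y t = ofAdd (cls t)`), and `κ δ = 0`. -/
theorem f4h {κ : FA →* Multiplicative ℤ} (h0 : κ (gs 0) = Multiplicative.ofAdd 1)
    (h1 : κ (gs 1) = Multiplicative.ofAdd 1) (h2 : κ (gs 2) = Multiplicative.ofAdd (-1))
    (h3 : κ (gs 3) = Multiplicative.ofAdd (-1)) (P : Pre (AD.EE ad_ok) FA) [Lattice FA]
    (F : Frame (AD.EE ad_ok) FA) (hF : ∀ s, F.g s = P.g s) (hd : F.δ = gd)
    (hg : ∀ (k : Fin 4) (x : AD.SS ad_ok), x.i = ad.gi k → F.g x = gs k) :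
    Frame.F4H F (el 46 (by norm_num)) (el 43 (by norm_num)) 2 (gs 0)
      (fun u => Multiplicative.toAdd (κ u)) := by
  have hP : ∀ (k : Fin ad.n) (x : AD.SS ad_ok), x.i = ad.gi k →
      P.g x = (PresentedGroup.of k : Artin ad.M) := by
    intro k x hx
    rw [← hF]
    exact hg k x hx
  have g104 : TD.gN P 104 = F.δ := by
    have e := fh_gN P ⊤
    rw [← hF, F.g_top] at e
    exact e
  have g43 : TD.gN P 43 = F.g (el 43 (by norm_num)) := by
    rw [hF]
    exact fh_gN P (el 43 (by norm_num))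
  have gy : ∀ y : AD.SS ad_ok, TD.gN P y.i = F.g y := fun y => by
    rw [hF]
    exact fh_gN P y
  have hat : ∀ t, 1 ≤ t → t ≤ 24 → κ (TD.gN P t) = Multiplicative.ofAdd (cls t) := by
    intro t ht1 ht2
    refine AD.hom_atoms ad_ok P hP κ (fun t => Multiplicative.ofAdd (cls t)) ?_ ?_ ht1 ht2
    · intro t u ht hu hb
      change Multiplicative.ofAdd (cls t) * Multiplicative.ofAdd (cls u) =
        Multiplicative.ofAdd (cls u) * Multiplicative.ofAdd (cls (ad.d t u))
      rw [mul_comm, kcls t u ht hu hb]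
    · intro k
      have h4 : ∀ k : Fin 4, κ (gs k) = Multiplicative.ofAdd (cls (ad.gi k)) := by
        intro k
        fin_cases k
        · exact h0
        · exact h1
        · exact h2
        · exact h3
      exact h4 k
  have hmul : ∀ u v : FA, Multiplicative.toAdd (κ (u * v)) =
      Multiplicative.toAdd (κ u) + Multiplicative.toAdd (κ v) := by
    intro u v
    rw [map_mul, toAdd_mul]
  refine
    { h1 := TD.tau_triv k1
      m6 := rfl
      moved := TD.exists_moved kw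
      b3 := TD.blk_of kb3 rfl
      two := TD.two_of kt2
      kt := TD.kt_of kt2
      a_mem := TD.mem_T_iff.2 ki2
      fa := fh_fa
      hU := fh_hU _ F hg
      rel0 := ?_
      rel := ?_
      κ_mul := hmul
      κ_δ := ?_
      κ_a := ?_ }
  · have e := TD.wc_sound P kr0
    rw [fh_W1, fh_W2, pow_zero, mul_one, g43] at e
    rw [show TD.gN P 46 = F.g (el 46 (by norm_num)) from gy (el 46 (by norm_num))] at e
    exact e
  · intro y hy k hk e
    by_contra hk0
    have h5 : y.i ∈ td.lsT 2 := mem_upB y.lt (TD.mem_T_iff.1 hy)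
    rw [TD.eqL_iff.1 kl2] at h5
    have h6 : y.i ∈ [46, 76, 60, 56] := by
      simp only [List.mem_cons, List.not_mem_nil, or_false] at h5 ⊢
      omega
    have h7 : cond (Nat.beq k 0) true (td.wn (W1 y.i k) (W2 y.i k)) = true :=
      allB_spec (allL_spec kr y.i h6) k hk
    have h8 : Nat.beq k 0 = false := by
      rw [← Bool.not_eq_true]
      exact fun h' => hk0 (Nat.eq_of_beq_eq_true h')
    rw [h8] at h7
    refine TD.wn_sound P h7 ?_
    rw [fh_W1, fh_W2, g43, g104, gy y]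
    exact e
  · rw [hd, gd, hmul, hmul, hmul, h0, h1, h2, h3]
    rfl
  · have h9 : (el 1 (by norm_num) : AD.SS ad_ok) ≤ el 46 (by norm_num) := kle46
    have h10 : (AD.EE ad_ok).q (el 1 (by norm_num)) (el 46 (by norm_num)) =
        el 17 (by norm_num) := by
      apply TD.El.ext'
      exact (TD.El.q_i (h := ad_ok.ok) h9).trans (Nat.eq_of_beq_eq_true kq46)
    have h11 := F.g_mul h9
    rw [h10, ← gy (el 1 (by norm_num)), ← gy (el 17 (by norm_num))] at h11
    rw [← h11, hmul]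
    rw [show κ (TD.gN P (el 1 (by norm_num) : AD.SS ad_ok).i) = Multiplicative.ofAdd (cls 1) from
        hat 1 (by norm_num) (by norm_num),
      show κ (TD.gN P (el 17 (by norm_num) : AD.SS ad_ok).i) = Multiplicative.ofAdd (cls 17) from
        hat 17 (by norm_num) (by norm_num)]
    decide

/-- `gd ^ 6` is central (`comm_pow_m`, `m = 6`) -/
theorem gd6 (u : FA) : u * gd ^ 6 = gd ^ 6 * u := by
  obtain ⟨P, L, F, -, -, hd, -, -⟩ := frame
  rw [← hd]
  exact @Frame.comm_pow_m _ _ _ _ _ _ L F u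

private lemma etc_mv {G : Type*} [Group G] {w : G} (hw : w ∈ Subgroup.center G) (a b w' : G) :
    (a * w) * (b * w') = (a * b) * (w * w') := by
  have h := Subgroup.mem_center_iff.mp hw b
  rw [mul_assoc a w, ← mul_assoc w b, ← h, mul_assoc b w, ← mul_assoc]

private lemma etc_br {G : Type*} [Group G] {m : ℕ} {x y w w' : G} (hw : w ∈ Subgroup.center G)
    (hw' : w' ∈ Subgroup.center G) (h : CD.Br m x y) (hm : m = 3 ∨ m = 5 → w = w') :
    CD.Br m (x * w) (y * w') := by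
  obtain ⟨b2, b3, b4, b5⟩ := h
  have hc : w * w' = w' * w := Subgroup.mem_center_iff.mp hw' w
  have c2 : w * w' ∈ Subgroup.center G := mul_mem hw hw'
  have c2' : w' * w ∈ Subgroup.center G := mul_mem hw' hw
  have c3 : w * w' * w ∈ Subgroup.center G := mul_mem c2 hw
  have c3' : w' * w * w' ∈ Subgroup.center G := mul_mem c2' hw'
  refine ⟨fun e => ?_, fun e => ?_, fun e => ?_, fun e => ?_⟩
  · rw [etc_mv hw, etc_mv hw', b2 e, hc]
  · have hww := hm (Or.inl e)
    subst hww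
    rw [etc_mv hw, etc_mv hw, etc_mv c2, etc_mv c2, b3 e]
  · rw [etc_mv hw, etc_mv hw', etc_mv c2, etc_mv c2', etc_mv c3, etc_mv c3', b4 e]
    congr 1
    rw [mul_assoc (w * w'), mul_assoc (w' * w), hc]
  · have hww := hm (Or.inr e)
    subst hww
    rw [etc_mv hw, etc_mv hw, etc_mv c2, etc_mv c2, etc_mv c3, etc_mv c3,
      etc_mv (mul_mem c3 hw), etc_mv (mul_mem c3 hw), b5 e]

private lemma etc_z : gd ^ 6 ∈ Subgroup.center FA :=
  Subgroup.mem_center_iff.mpr gd6

private def etc_w (i : Fin 4) : FA := ![gd ^ 6, gd ^ 6, (gd ^ 6)⁻¹, (gd ^ 6)⁻¹] i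

private lemma etc_w_mem (i : Fin 4) : etc_w i ∈ Subgroup.center FA := by
  fin_cases i
  · exact etc_z
  · exact etc_z
  · exact inv_mem etc_z
  · exact inv_mem etc_z

private lemma etc_w_eq {s t : Fin 4} (h : ad.M s t = 3 ∨ ad.M s t = 5) : etc_w s = etc_w t := by
  have hk : ∀ s t : Fin 4, (ad.M s t = 3 ∨ ad.M s t = 5) → (s < 2 ↔ t < 2) := by decide +kernel
  have h1 : ∀ s : Fin 4, etc_w s = if s < 2 then gd ^ 6 else (gd ^ 6)⁻¹ := by
    intro s
    fin_cases s <;> rfl
  rw [h1 s, h1 t]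
  exact if_congr (hk s t h) rfl rfl

private lemma etc_lift : ∃ F : FA →* FA, ∀ s, F (gs s) = gs s * etc_w s :=
  exists_lift (M := CoxeterMatrix.F₄) M_bd (fun s => gs s * etc_w s) fun s t _ =>
    etc_br (etc_w_mem s) (etc_w_mem t) (br_of s t) fun h => etc_w_eq h

private lemma etc_lift' : ∃ F : FA →* FA, ∀ s, F (gs s) = gs s * (etc_w s)⁻¹ :=
  exists_lift (M := CoxeterMatrix.F₄) M_bd (fun s => gs s * (etc_w s)⁻¹) fun s t _ =>
    etc_br (inv_mem (etc_w_mem s)) (inv_mem (etc_w_mem t)) (br_of s t) fun h => by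
      rw [etc_w_eq h]

private lemma etc_gd (F : FA →* FA) (v : Fin 4 → FA) (hv : ∀ s, v s ∈ Subgroup.center FA)
    (h : ∀ s, F (gs s) = gs s * v s) (hp : v 0 * v 1 * v 2 * v 3 = 1) : F gd = gd := by
  rw [gd, map_mul, map_mul, map_mul, h, h, h, h, etc_mv (hv 0), etc_mv (mul_mem (hv 0) (hv 1)),
    etc_mv (mul_mem (mul_mem (hv 0) (hv 1)) (hv 2)), hp, mul_one]

private lemma etc_w_fix (F : FA →* FA) (h : F gd = gd) (s : Fin 4) : F (etc_w s) = etc_w s := by
  have hz : F (gd ^ 6) = gd ^ 6 := by rw [map_pow, h]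
  fin_cases s
  · exact hz
  · exact hz
  · exact (map_inv F (gd ^ 6)).trans (congrArg _ hz)
  · exact (map_inv F (gd ^ 6)).trans (congrArg _ hz)

/-- `exists_lift`; the inverse is given by the same formula with `(gd ^ 6)⁻¹`; `T gd = gd` because
the four factors cancel -/
theorem exists_T : ∃ T : MulAut FA, T (gs 0) = gs 0 * gd ^ 6 ∧ T (gs 1) = gs 1 * gd ^ 6 ∧
    T (gs 2) = gs 2 * (gd ^ 6)⁻¹ ∧ T (gs 3) = gs 3 * (gd ^ 6)⁻¹ ∧ T gd = gd := by
  obtain ⟨F, hF⟩ := etc_lift
  obtain ⟨F', hF'⟩ := etc_lift'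
  have hg : F gd = gd := etc_gd F etc_w etc_w_mem hF (by
    change gd ^ 6 * gd ^ 6 * (gd ^ 6)⁻¹ * (gd ^ 6)⁻¹ = 1
    group)
  have hg' : F' gd = gd := etc_gd F' (fun s => (etc_w s)⁻¹) (fun s => inv_mem (etc_w_mem s)) hF' (by
    change (gd ^ 6)⁻¹ * (gd ^ 6)⁻¹ * (gd ^ 6)⁻¹⁻¹ * (gd ^ 6)⁻¹⁻¹ = 1
    group)
  have e1 : F'.comp F = MonoidHom.id FA := by
    apply hom_ext
    intro s
    change F' (F (gs s)) = gs s
    rw [hF, map_mul, hF', etc_w_fix F' hg', inv_mul_cancel_right]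
  have e2 : F.comp F' = MonoidHom.id FA := by
    apply hom_ext
    intro s
    change F (F' (gs s)) = gs s
    rw [hF', map_mul, hF, map_inv, etc_w_fix F hg, mul_inv_cancel_right]
  let T : MulAut FA :=
    { toFun := F, invFun := F', left_inv := fun x => DFunLike.congr_fun e1 x,
      right_inv := fun x => DFunLike.congr_fun e2 x, map_mul' := map_mul F }
  exact ⟨T, hF 0, hF 1, hF 2, hF 3, hg⟩

/-- `exists_lift`; the matrix is symmetric under `i ↦ 3 - i` -/
theorem exists_theta : ∃ θ : MulAut FA, (∀ i, θ (gs i) = gs (Fin.rev i)) ∧ θ * θ = 1 := by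
  have hM : ∀ s t : Fin 4, ad.M s.rev t.rev = ad.M s t := by decide +kernel
  obtain ⟨F, hF⟩ := exists_lift (M := CoxeterMatrix.F₄) M_bd (fun s => gs (Fin.rev s))
    (fun s t _ => by
      have h := br_of (M := CoxeterMatrix.F₄) s.rev t.rev
      have e : CoxeterMatrix.F₄ s.rev t.rev = CoxeterMatrix.F₄ s t := hM s t
      rw [e] at h
      exact h)
  have hFF : F.comp F = MonoidHom.id FA := by
    apply hom_ext
    intro s
    rw [MonoidHom.comp_apply, hF, gs, hF, Fin.rev_rev]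
    rfl
  have hFF' : ∀ x, F (F x) = x := fun x => DFunLike.congr_fun hFF x
  let θ : MulAut FA :=
    { toFun := F, invFun := F, left_inv := hFF', right_inv := hFF', map_mul' := map_mul F }
  refine ⟨θ, fun s => hF s, ?_⟩
  ext x
  exact hFF' x

private lemma f4d_len : ∃ ℓ : FA →* Multiplicative ℤ, ∀ i, ℓ (gs i) = Multiplicative.ofAdd 1 := by
  obtain ⟨ℓ, hℓ⟩ := exists_len (M := CoxeterMatrix.F₄) M_bd
  exact ⟨ℓ, hℓ⟩

private lemma f4d_center (φ : MulAut FA) : φ (gd ^ 6) = gd ^ 6 ∨ φ (gd ^ 6) = (gd ^ 6)⁻¹ := by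
  obtain ⟨P, L, F, -, -, hd, -, -⟩ := frame
  have h := @Frame.map_center _ _ _ _ _ _ L F (TD.tau_triv k1) (TD.exists_moved kw) φ
  rw [hd] at h
  exact h

private lemma f4d_gd {ℓ : FA →* Multiplicative ℤ} {e : ℤ} {φ : MulAut FA}
    (h : ∀ i, ℓ (φ (gs i)) = Multiplicative.ofAdd e) :
    (ℓ (φ (gd ^ 6))).toAdd = 24 * e := by
  have h1 : ℓ (φ gd) = Multiplicative.ofAdd (4 * e) := by
    unfold gd
    simp only [map_mul, h]
    rw [← ofAdd_add, ← ofAdd_add, ← ofAdd_add]
    congr 1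
    ring
  rw [map_pow, map_pow, h1, toAdd_pow, toAdd_ofAdd]
  rw [nsmul_eq_mul]
  push_cast
  ring

private lemma f4d_ext {φ ψ : MulAut FA} (h : ∀ i, φ (gs i) = ψ (gs i)) : φ = ψ := by
  have h4 : φ.toMonoidHom = ψ.toMonoidHom := by
    apply hom_ext
    intro i
    exact h i
  exact MulEquiv.toMonoidHom_injective h4

/-- an automorphism preserves the center `⟨gd ^ 6⟩`; a length argument gives the sign -/
theorem theta_z {θ : MulAut FA} (h : ∀ i, θ (gs i) = gs (Fin.rev i)) : θ (gd ^ 6) = gd ^ 6 := by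
  obtain ⟨ℓ, hℓ⟩ := f4d_len
  rcases f4d_center θ with h1 | h1
  · exact h1
  · exfalso
    have h2 := f4d_gd (ℓ := ℓ) (e := 1) (φ := θ) (fun i => by rw [h, hℓ])
    have h3 := f4d_gd (ℓ := ℓ) (e := 1) (φ := 1) (fun i => by rw [MulAut.one_apply, hℓ])
    rw [MulAut.one_apply] at h3
    rw [h1, map_inv, toAdd_inv, h3] at h2
    omega

/-- `exists_eps`; `ε` changes the sign of the length, so `ε (gd ^ 6) = (gd ^ 6)⁻¹` -/
theorem eps_z {ε : MulAut FA} (h : InvertsGens CoxeterMatrix.F₄ ε) :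
    ε (gd ^ 6) = (gd ^ 6)⁻¹ := by
  obtain ⟨ℓ, hℓ⟩ := f4d_len
  have h' : ∀ i, ε (gs i) = (gs i)⁻¹ := h
  rcases f4d_center ε with h1 | h1
  · exfalso
    have h2 := f4d_gd (ℓ := ℓ) (e := -1) (φ := ε) (fun i => by rw [h', map_inv, hℓ]; rfl)
    have h3 := f4d_gd (ℓ := ℓ) (e := 1) (φ := 1) (fun i => by rw [MulAut.one_apply, hℓ])
    rw [MulAut.one_apply] at h3
    rw [h1, h3] at h2
    omega
  · exact h1

/-- compare the values on the generators; `θ (gd ^ 6) = gd ^ 6`, `T (gd ^ 6) = gd ^ 6`,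
`ε (gd ^ 6) = (gd ^ 6)⁻¹` -/
theorem rel4 {T θ ε : MulAut FA} (hT0 : T (gs 0) = gs 0 * gd ^ 6) (hT1 : T (gs 1) = gs 1 * gd ^ 6)
    (hT2 : T (gs 2) = gs 2 * (gd ^ 6)⁻¹) (hT3 : T (gs 3) = gs 3 * (gd ^ 6)⁻¹) (hTd : T gd = gd)
    (hθ : ∀ i, θ (gs i) = gs (Fin.rev i)) (hθθ : θ * θ = 1)
    (hε : InvertsGens CoxeterMatrix.F₄ ε) (hεε : ε * ε = 1) : Rel4 T θ ε := by
  have hε' : ∀ i, ε (gs i) = (gs i)⁻¹ := hε
  have hz : ∀ u : FA, u * gd ^ 6 = gd ^ 6 * u := gd6
  have hzi : ∀ u : FA, u * (gd ^ 6)⁻¹ = (gd ^ 6)⁻¹ * u := fun u => by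
    rw [eq_inv_mul_iff_mul_eq, ← mul_assoc, ← hz, mul_inv_cancel_right]
  have hθz := theta_z hθ
  have hθz' : θ (gd ^ 6)⁻¹ = (gd ^ 6)⁻¹ := by rw [map_inv, hθz]
  have hεz := eps_z hε
  have hεz' : ε (gd ^ 6)⁻¹ = gd ^ 6 := by rw [map_inv, hεz, inv_inv]
  have hTz : T (gd ^ 6) = gd ^ 6 := by rw [map_pow, hTd]
  have hTz' : T (gd ^ 6)⁻¹ = (gd ^ 6)⁻¹ := by rw [map_inv, hTz]
  have hTi : ∀ i (w : FA), T (gs i) = gs i * w → T w⁻¹ = w⁻¹ → T⁻¹ (gs i) = gs i * w⁻¹ := by
    intro i w h1 h2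
    have h3 : T⁻¹ (T (gs i * w⁻¹)) = gs i * w⁻¹ := MulAut.inv_apply_self FA T _
    rw [map_mul, h1, h2, mul_inv_cancel_right] at h3
    exact h3
  refine ⟨hθθ, hεε, ?_, ?_, ?_⟩
  · refine f4d_ext fun i => ?_
    rw [MulAut.mul_apply, MulAut.mul_apply, hθ]
    fin_cases i
    · change θ (T (gs 3)) = T⁻¹ (gs 0)
      rw [hT3, map_mul, hθz', hθ, hTi 0 _ hT0 hTz']
      rfl
    · change θ (T (gs 2)) = T⁻¹ (gs 1)
      rw [hT2, map_mul, hθz', hθ, hTi 1 _ hT1 hTz']
      rfl
    · change θ (T (gs 1)) = T⁻¹ (gs 2)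
      rw [hT1, map_mul, hθz, hθ, hTi 2 _ hT2 (by rw [inv_inv]; exact hTz), inv_inv]
      rfl
    · change θ (T (gs 0)) = T⁻¹ (gs 3)
      rw [hT0, map_mul, hθz, hθ, hTi 3 _ hT3 (by rw [inv_inv]; exact hTz), inv_inv]
      rfl
  · refine f4d_ext fun i => ?_
    rw [MulAut.mul_apply, MulAut.mul_apply]
    fin_cases i
    · change ε (T (gs 0)) = T (ε (gs 0))
      rw [hε', hT0, map_mul, map_inv, hT0, hεz, hε', mul_inv_rev, hzi]
    · change ε (T (gs 1)) = T (ε (gs 1))
      rw [hε', hT1, map_mul, map_inv, hT1, hεz, hε', mul_inv_rev, hzi]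
    · change ε (T (gs 2)) = T (ε (gs 2))
      rw [hε', hT2, map_mul, hεz', hε', map_inv, hT2, mul_inv_rev, inv_inv, hz]
    · change ε (T (gs 3)) = T (ε (gs 3))
      rw [hε', hT3, map_mul, hεz', hε', map_inv, hT3, mul_inv_rev, inv_inv, hz]
  · refine f4d_ext fun i => ?_
    rw [MulAut.mul_apply, MulAut.mul_apply, hθ, hε', hε', map_inv, hθ]

/-- Let `τ ∈ TvG`, `τ (gs i) = gs i * ζ ^ (c i)`, `ζ = gd ^ 6`.  The braid relation of `gs 0`, `gs 1`
gives `c 0 = c 1` (`ζ` is central and of infinite order by the length), similarly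
`c 2 = c 3`.  `τ ζ = ζ` gives, with the length or directly with `ζ = gd ^ 6`,
`c 0 + c 1 + c 2 + c 3 = 0`, so `c 2 = - c 0`.  Hence `τ = T ^ (c 0)`. -/
theorem TvG_eq [Lattice FA] (F : Frame (AD.EE ad_ok) FA) (hd : F.δ = gd)
    (hl : ∀ k : Fin 4, F.len (gs k) = 1) {T : MulAut FA} (hT0 : T (gs 0) = gs 0 * gd ^ 6)
    (hT1 : T (gs 1) = gs 1 * gd ^ 6) (hT2 : T (gs 2) = gs 2 * (gd ^ 6)⁻¹)
    (hT3 : T (gs 3) = gs 3 * (gd ^ 6)⁻¹) (hTd : T gd = gd) {τ : MulAut FA}
    (hτ : τ ∈ F.TvG) : ∃ k : ℤ, τ = T ^ k := by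
  obtain ⟨hζ, hu⟩ := F.mem_TvG.1 hτ
  have hδm : F.δ ^ (AD.EE ad_ok).m = gd ^ 6 := by rw [hd]; rfl
  rw [hδm] at hζ
  simp only [hδm] at hu
  choose c hc using hu
  have l1 : F.len 1 = 0 := by
    have h := F.len_mul 1 1
    rw [mul_one] at h
    omega
  let Lh : FA →* Multiplicative ℤ :=
    { toFun := fun v => Multiplicative.ofAdd (F.len v)
      map_one' := by rw [l1]; rfl
      map_mul' := fun v w => by rw [F.len_mul]; rfl }
  have lz : ∀ (u : FA) (n : ℤ), F.len (u ^ n) = n * F.len u := by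
    intro u n
    have h2 : Multiplicative.ofAdd (F.len (u ^ n)) = Multiplicative.ofAdd (n • F.len u) := by
      rw [ofAdd_zsmul]
      exact map_zpow Lh u n
    have h3 := Multiplicative.ofAdd.injective h2
    rw [h3, smul_eq_mul]
  have lgd : F.len gd = 4 := by
    unfold gd
    rw [F.len_mul, F.len_mul, F.len_mul, hl, hl, hl, hl]
    norm_num
  have lζ : F.len (gd ^ 6) = 24 := by
    have h := lz gd 6
    rw [lgd] at h
    norm_cast at h
  have lτ : ∀ u, F.len (τ u) = F.len u + 24 * c u := by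
    intro u
    rw [hc u, F.len_mul, lz, lζ]
    ring
  have b01 : gs 0 * gs 1 * gs 0 = gs 1 * gs 0 * gs 1 :=
    (br_of (M := CoxeterMatrix.F₄) 0 1).2.1 (by decide)
  have b23 : gs 2 * gs 3 * gs 2 = gs 3 * gs 2 * gs 3 :=
    (br_of (M := CoxeterMatrix.F₄) 2 3).2.1 (by decide)
  have e01 : c (gs 0) = c (gs 1) := by
    have h := congrArg (fun u => F.len (τ u)) b01
    simp only [map_mul, F.len_mul, lτ] at h
    rw [hl, hl] at h
    omega
  have e23 : c (gs 2) = c (gs 3) := by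
    have h := congrArg (fun u => F.len (τ u)) b23
    simp only [map_mul, F.len_mul, lτ] at h
    rw [hl, hl] at h
    omega
  have es : c (gs 0) + c (gs 1) + c (gs 2) + c (gs 3) = 0 := by
    have h := congrArg F.len hζ
    rw [map_pow, lζ] at h
    have h1 := lz (τ gd) 6
    have h2 : F.len (τ gd) = 4 + 24 * (c (gs 0) + c (gs 1) + c (gs 2) + c (gs 3)) := by
      unfold gd
      simp only [map_mul, F.len_mul, lτ, hl]
      ring
    norm_cast at h1
    rw [h1, h2] at h
    omega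
  have hTζ : T (gd ^ 6) = gd ^ 6 := by rw [map_pow, hTd]
  refine ⟨c (gs 0), ?_⟩
  have key : ∀ i : Fin 4, ∀ n : ℤ, T (gs i) = gs i * (gd ^ 6) ^ n → ∀ k : ℤ,
      (T ^ k) (gs i) = gs i * (gd ^ 6) ^ (n * k) := by
    intro i n hi k
    have hTz : ∀ j : ℤ, T ((gd ^ 6) ^ j) = (gd ^ 6) ^ j := fun j => by rw [map_zpow, hTζ]
    have hTi : T⁻¹ (gs i) = gs i * (gd ^ 6) ^ (-n) := by
      have h1 : T⁻¹ (T (gs i * (gd ^ 6) ^ (-n))) = gs i * (gd ^ 6) ^ (-n) :=
        MulAut.inv_apply_self FA T _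
      rw [map_mul, hi, hTz, mul_assoc, ← zpow_add, add_neg_cancel, zpow_zero, mul_one] at h1
      exact h1
    induction k with
    | zero => simp
    | succ k ih =>
      rw [add_comm, zpow_add, zpow_one, MulAut.mul_apply, ih, map_mul, hi, hTz, mul_assoc,
        ← zpow_add]
      congr 2
      ring
    | pred k ih =>
      have hTz' : ∀ j : ℤ, T⁻¹ ((gd ^ 6) ^ j) = (gd ^ 6) ^ j := fun j => by
        conv_lhs => rw [← hTz j]
        exact MulAut.inv_apply_self FA T _
      rw [sub_eq_add_neg, add_comm, zpow_add, zpow_neg_one, MulAut.mul_apply, ih, map_mul, hTi,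
        hTz', mul_assoc, ← zpow_add]
      congr 2
      ring
  have h4 : τ.toMonoidHom = (T ^ c (gs 0)).toMonoidHom := by
    apply hom_ext
    intro i
    change τ (gs i) = (T ^ c (gs 0)) (gs i)
    rw [hc (gs i)]
    fin_cases i
    · change gs 0 * (gd ^ 6) ^ c (gs 0) = (T ^ c (gs 0)) (gs 0)
      rw [key 0 1 (by rw [zpow_one]; exact hT0), one_mul]
    · change gs 1 * (gd ^ 6) ^ c (gs 1) = (T ^ c (gs 0)) (gs 1)
      rw [key 1 1 (by rw [zpow_one]; exact hT1), one_mul, e01]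
    · change gs 2 * (gd ^ 6) ^ c (gs 2) = (T ^ c (gs 0)) (gs 2)
      rw [key 2 (-1) (by rw [zpow_neg_one]; exact hT2)]
      congr 2
      omega
    · change gs 3 * (gd ^ 6) ^ c (gs 3) = (T ^ c (gs 0)) (gs 3)
      rw [key 3 (-1) (by rw [zpow_neg_one]; exact hT3)]
      congr 2
      omega
  exact MulEquiv.toMonoidHom_injective h4

private theorem f4f_ext {L L' : FA → ℤ} (hL : ∀ u v, L (u * v) = L u + L v)
    (hL' : ∀ u v, L' (u * v) = L' u + L' v) (h : ∀ i, L (gs i) = L' (gs i)) (u : FA) :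
    L u = L' u := by
  have h1 : (MonoidHom.mk' (fun u => Multiplicative.ofAdd (L u))
      (fun u v => congrArg Multiplicative.ofAdd (hL u v)) : FA →* Multiplicative ℤ) =
      MonoidHom.mk' (fun u => Multiplicative.ofAdd (L' u))
      (fun u v => congrArg Multiplicative.ofAdd (hL' u v)) :=
    hom_ext fun s => congrArg Multiplicative.ofAdd (h s)
  exact Multiplicative.ofAdd.injective (DFunLike.congr_fun h1 u)

private theorem f4f_one {L : FA → ℤ} (hL : ∀ u v, L (u * v) = L u + L v) : L 1 = 0 := by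
  have h := hL 1 1
  rw [mul_one] at h
  omega

private theorem f4f_inv {L : FA → ℤ} (hL : ∀ u v, L (u * v) = L u + L v) (u : FA) :
    L u⁻¹ = -L u := by
  have h := hL u⁻¹ u
  rw [inv_mul_cancel, f4f_one hL] at h
  omega

private theorem f4f_pow {L : FA → ℤ} (hL : ∀ u v, L (u * v) = L u + L v) (u : FA) (n : ℕ) :
    L (u ^ n) = n * L u := by
  induction n with
  | zero => rw [pow_zero, f4f_one hL]; simp
  | succ n ih =>
    rw [pow_succ, hL, ih]
    push_cast
    ring

private theorem f4f_conj {L : FA → ℤ} (hL : ∀ u v, L (u * v) = L u + L v) (x u : FA) :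
    L (MulAut.conj x u) = L u := by
  rw [MulAut.conj_apply, hL, hL, f4f_inv hL]
  ring

/-- the sign of a Boolean -/
private def sg (b : Bool) : ℤ := if b = true then -1 else 1

private theorem sg_inj {a b : Bool} (h : sg a = sg b) : a = b := by
  cases a <;> cases b <;> simp [sg] at h ⊢

private theorem sg_mul {a b c : Bool} (h : sg a * sg c = sg b * sg c) : a = b := by
  apply sg_inj
  cases c <;> simp [sg] at h ⊢ <;> exact h

private theorem f4f_T {L κ : FA → ℤ} {T : MulAut FA}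
    (hT : ∀ u, L (T u) = L u + 24 * κ u) (hκ : ∀ u, κ (T u) = κ u) (k : ℤ) :
    ∀ u, L ((T ^ k) u) = L u + 24 * k * κ u ∧ κ ((T ^ k) u) = κ u := by
  have hTi : ∀ u, L (T⁻¹ u) = L u - 24 * κ u ∧ κ (T⁻¹ u) = κ u := by
    intro u
    have e1 : T (T⁻¹ u) = u := MulAut.apply_inv_self FA T u
    have h1 := hT (T⁻¹ u)
    have h2 := hκ (T⁻¹ u)
    rw [e1] at h1 h2
    constructor
    · rw [← h2] at h1
      omega
    · exact h2.symm
  induction k using Int.induction_on with
  | zero =>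
    intro u
    rw [zpow_zero, MulAut.one_apply]
    constructor
    · ring
    · rfl
  | succ n ih =>
    intro u
    rw [zpow_add_one, MulAut.mul_apply]
    obtain ⟨h1, h2⟩ := ih (T u)
    rw [h1, h2, hT, hκ]
    constructor
    · ring
    · rfl
  | pred n ih =>
    intro u
    rw [zpow_sub_one, MulAut.mul_apply]
    obtain ⟨h1, h2⟩ := ih (T⁻¹ u)
    rw [h1, h2, (hTi u).1, (hTi u).2]
    constructor
    · ring
    · rfl

private theorem f4f_tw {L κ : FA → ℤ} {T θ ε : MulAut FA}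
    (hL : ∀ u v, L (u * v) = L u + L v) (hK : ∀ u v, κ (u * v) = κ u + κ v)
    (hT : ∀ u, L (T u) = L u + 24 * κ u) (hκ : ∀ u, κ (T u) = κ u)
    (hθ : ∀ u, L (θ u) = L u) (hκθ : ∀ u, κ (θ u) = -κ u)
    (hε : ∀ u, L (ε u) = -L u) (hκε : ∀ u, κ (ε u) = -κ u) (x : FA) (k : ℤ) (u v : Bool)
    (w : FA) :
    L (tw4 T θ ε x k u v w) = sg v * L w + 24 * k * (sg u * sg v * κ w) ∧
      κ (tw4 T θ ε x k u v w) = sg u * sg v * κ w := by
  have e1 : ∀ w, L ((if v = true then ε else 1) w) = sg v * L w ∧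
      κ ((if v = true then ε else 1) w) = sg v * κ w := by
    intro w
    cases v
    · simp [sg]
    · simp [sg, hε, hκε]
  have e2 : ∀ w, L ((if u = true then θ else 1) w) = L w ∧
      κ ((if u = true then θ else 1) w) = sg u * κ w := by
    intro w
    cases u
    · simp [sg]
    · simp [sg, hθ, hκθ]
  unfold tw4
  rw [MulAut.mul_apply, MulAut.mul_apply, MulAut.mul_apply, f4f_conj hL, f4f_conj hK]
  rw [(f4f_T hT hκ k _).1, (f4f_T hT hκ k _).2, (e2 _).1, (e2 _).2, (e1 _).1, (e1 _).2]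
  constructor
  · ring
  · ring

/-- `φ ζ = ζ` or `φ ζ = ζ⁻¹` (`map_center`); in the second case consider `φ * ε`.  `NN_or` and
`TvG_eq`.  Uniqueness: apply both sides to `gd` and `gs 0` and take the length and `κ`: on
`gd` the length is `± len gd` with the sign given by `v`; `κ ∘ φ = ± κ` with the sign given by
`u`, `v`; the length of `φ (gs 0)` is `± (1 + 24 k)`; then `conj x = conj y` and `x⁻¹ y` is
central. -/
theorem form4 {T θ ε : MulAut FA} (hT0 : T (gs 0) = gs 0 * gd ^ 6)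
    (hT1 : T (gs 1) = gs 1 * gd ^ 6) (hT2 : T (gs 2) = gs 2 * (gd ^ 6)⁻¹)
    (hT3 : T (gs 3) = gs 3 * (gd ^ 6)⁻¹) (hTd : T gd = gd)
    (hθ : ∀ i, θ (gs i) = gs (Fin.rev i)) (hθθ : θ * θ = 1)
    (hε : InvertsGens CoxeterMatrix.F₄ ε) (hεε : ε * ε = 1) :
    FormMod4 T θ ε (gd ^ 6) := by
  obtain ⟨κ, k0, k1', k2, k3⟩ := exists_kap
  obtain ⟨P, Lt, F, hF, hln, hd, hg, hlen⟩ := frame
  letI := Lt
  have hH := f4h k0 k1' k2 k3 P F hF hd hg
  have hm : (AD.EE ad_ok).m = 6 := hH.m6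
  have htriv := TD.tau_triv (h := ad_ok.ok) k1
  have hmov := TD.exists_moved (h := ad_ok.ok) kw
  have hcen := F.center_eq htriv hmov
  rw [hd] at hcen
  have hcen' : Subgroup.center FA = Subgroup.zpowers (gd ^ 6) := hcen
  -- the two additive invariants
  have hL := F.len_mul
  have hK : ∀ u v : FA, Multiplicative.toAdd (κ (u * v)) =
      Multiplicative.toAdd (κ u) + Multiplicative.toAdd (κ v) := by
    intro u v
    rw [map_mul]
    rfl
  have c0 : Multiplicative.toAdd (κ (gs 0)) = 1 := by rw [k0]; rfl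
  have c1 : Multiplicative.toAdd (κ (gs 1)) = 1 := by rw [k1']; rfl
  have c2 : Multiplicative.toAdd (κ (gs 2)) = -1 := by rw [k2]; rfl
  have c3 : Multiplicative.toAdd (κ (gs 3)) = -1 := by rw [k3]; rfl
  generalize hKdef : (fun u : FA => Multiplicative.toAdd (κ u)) = K at hH
  have hKu : ∀ u, Multiplicative.toAdd (κ u) = K u := fun u => congrFun hKdef u
  simp only [hKu] at hK c0 c1 c2 c3
  have lgd : F.len gd = 4 := by
    unfold gd
    rw [hL, hL, hL, hlen, hlen, hlen, hlen]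
    norm_num
  have kgd : K gd = 0 := by
    unfold gd
    rw [hK, hK, hK, c0, c1, c2, c3]
    norm_num
  have lgd6 : F.len (gd ^ 6) = 24 := by
    rw [f4f_pow hL, lgd]
    norm_num
  have kgd6 : K (gd ^ 6) = 0 := by
    rw [f4f_pow hK, kgd]
    norm_num
  have lT : ∀ u, F.len (T u) = F.len u + 24 * K u := by
    apply f4f_ext (L := fun u => F.len (T u)) (L' := fun u => F.len u + 24 * K u)
    · intro u v
      show F.len (T (u * v)) = _
      rw [map_mul, hL]
    · intro u v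
      show F.len (u * v) + 24 * K (u * v) = _
      rw [hL, hK]
      ring
    · intro i
      show F.len (T (gs i)) = F.len (gs i) + 24 * K (gs i)
      fin_cases i
      · show F.len (T (gs 0)) = F.len (gs 0) + 24 * K (gs 0)
        rw [hT0, hL, lgd6, c0]
        norm_num
      · show F.len (T (gs 1)) = F.len (gs 1) + 24 * K (gs 1)
        rw [hT1, hL, lgd6, c1]
        norm_num
      · show F.len (T (gs 2)) = F.len (gs 2) + 24 * K (gs 2)
        rw [hT2, hL, f4f_inv hL, lgd6, c2]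
        norm_num
      · show F.len (T (gs 3)) = F.len (gs 3) + 24 * K (gs 3)
        rw [hT3, hL, f4f_inv hL, lgd6, c3]
        norm_num
  have kT : ∀ u, K (T u) = K u := by
    apply f4f_ext (L := fun u => K (T u)) (L' := K)
    · intro u v
      show K (T (u * v)) = _
      rw [map_mul, hK]
    · exact hK
    · intro i
      show K (T (gs i)) = K (gs i)
      fin_cases i
      · show K (T (gs 0)) = K (gs 0)
        rw [hT0, hK, kgd6, add_zero]
      · show K (T (gs 1)) = K (gs 1)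
        rw [hT1, hK, kgd6, add_zero]
      · show K (T (gs 2)) = K (gs 2)
        rw [hT2, hK, f4f_inv hK, kgd6, neg_zero, add_zero]
      · show K (T (gs 3)) = K (gs 3)
        rw [hT3, hK, f4f_inv hK, kgd6, neg_zero, add_zero]
  have lθ : ∀ u, F.len (θ u) = F.len u := by
    apply f4f_ext (L := fun u => F.len (θ u)) (L' := F.len)
    · intro u v
      show F.len (θ (u * v)) = _
      rw [map_mul, hL]
    · exact hL
    · intro i
      show F.len (θ (gs i)) = F.len (gs i)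
      rw [hθ, hlen, hlen]
  have kθ : ∀ u, K (θ u) = -K u := by
    apply f4f_ext (L := fun u => K (θ u)) (L' := fun u => -K u)
    · intro u v
      show K (θ (u * v)) = _
      rw [map_mul, hK]
    · intro u v
      show -K (u * v) = _
      rw [hK]
      ring
    · intro i
      show K (θ (gs i)) = -K (gs i)
      rw [hθ]
      fin_cases i
      · show K (gs 3) = -K (gs 0)
        rw [c3, c0]
      · show K (gs 2) = -K (gs 1)
        rw [c2, c1]
      · show K (gs 1) = -K (gs 2)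
        rw [c1, c2]
        norm_num
      · show K (gs 0) = -K (gs 3)
        rw [c0, c3]
        norm_num
  have lε : ∀ u, F.len (ε u) = -F.len u := fun u => len_eps hε hL hlen u
  have kε : ∀ u, K (ε u) = -K u := by
    apply f4f_ext (L := fun u => K (ε u)) (L' := fun u => -K u)
    · intro u v
      show K (ε (u * v)) = _
      rw [map_mul, hK]
    · intro u v
      show -K (u * v) = _
      rw [hK]
      ring
    · intro i
      show K (ε (gs i)) = -K (gs i)
      have h1 : ε (gs i) = (gs i)⁻¹ := hε i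
      rw [h1, f4f_inv hK]
  have hmd : F.δ ^ (AD.EE ad_ok).m = gd ^ 6 := by rw [hd, hm]
  -- the first part for the automorphisms which fix `gd ^ 6`
  have hfix : ∀ φ : MulAut FA, φ (gd ^ 6) = gd ^ 6 →
      ∃ (x : FA) (k : ℤ) (u : Bool), φ = tw4 T θ ε x k u false := by
    intro φ hφ
    have hφ' : φ (F.δ ^ (AD.EE ad_ok).m) = F.δ ^ (AD.EE ad_ok).m := by rw [hmd, hφ]
    have hθ' : θ (F.δ ^ (AD.EE ad_ok).m) = F.δ ^ (AD.EE ad_ok).m := by rw [hmd, theta_z hθ]
    have hNN : ∀ ψ : MulAut FA, ψ ∈ F.NN → ∃ (x : FA) (k : ℤ), ψ = MulAut.conj x * T ^ k := by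
      intro ψ hψ
      obtain ⟨x, τ, hτ, h1⟩ := F.mem_NN.1 hψ
      obtain ⟨k, hk⟩ := TvG_eq F hd hlen hT0 hT1 hT2 hT3 hTd hτ
      exact ⟨x, k, by rw [h1, hk]⟩
    rcases Frame.NN_or hH kθ hθ' hφ' with h1 | h1
    · obtain ⟨x, k, h2⟩ := hNN _ h1
      refine ⟨x, k, false, ?_⟩
      unfold tw4
      simp only [Bool.false_eq_true, if_false, mul_one]
      exact h2
    · obtain ⟨x, k, h2⟩ := hNN _ h1
      refine ⟨x, k, true, ?_⟩
      unfold tw4
      simp only [Bool.false_eq_true, if_false, if_true, mul_one]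
      rw [← h2, inv_mul_cancel_right]
  constructor
  · intro φ
    have h1 : φ (gd ^ 6) = gd ^ 6 ∨ φ (gd ^ 6) = (gd ^ 6)⁻¹ := by
      have h2 := F.map_center htriv hmov φ
      rwa [hmd] at h2
    rcases h1 with h1 | h1
    · obtain ⟨x, k, u, h2⟩ := hfix φ h1
      exact ⟨x, k, u, false, h2⟩
    · have h2 : (φ * ε) (gd ^ 6) = gd ^ 6 := by
        rw [MulAut.mul_apply, eps_z hε, map_inv, h1, inv_inv]
      obtain ⟨x, k, u, h3⟩ := hfix _ h2
      refine ⟨x, k, u, true, ?_⟩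
      have h4 : φ = φ * ε * ε := by rw [mul_assoc, hεε, mul_one]
      rw [h4, h3]
      unfold tw4
      simp only [Bool.false_eq_true, if_false, if_true, mul_one]
  · intro x y k l u u' v v'
    have htw := f4f_tw hL hK lT kT lθ kθ lε kε
    constructor
    · intro h
      have h1 := (htw x k u v (gs 0)).2
      have h2 := (htw y l u' v' (gs 0)).2
      have h3 := (htw x k u v gd).1
      have h4 := (htw y l u' v' gd).1
      have h5 := (htw x k u v (gs 0)).1
      have h6 := (htw y l u' v' (gs 0)).1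
      rw [h] at h1 h3 h5
      rw [h1, c0, mul_one, mul_one] at h2
      rw [h3, kgd, lgd] at h4
      rw [h5, c0, hlen] at h6
      have hv : v = v' := by
        apply sg_inj
        linarith
      subst hv
      have hu : u = u' := sg_mul h2
      subst hu
      have hk : k = l := by
        cases u <;> cases v <;> simp [sg] at h6 ⊢ <;> omega
      subst hk
      refine ⟨rfl, rfl, rfl, ?_⟩
      unfold tw4 at h
      have h7 := mul_right_cancel (mul_right_cancel (mul_right_cancel h))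
      rw [← hcen', Subgroup.mem_center_iff]
      intro w
      have h8 := DFunLike.congr_fun h7 w
      rw [MulAut.conj_apply, MulAut.conj_apply] at h8
      have h9 : w * x⁻¹ * y = x⁻¹ * y * w := by
        calc w * x⁻¹ * y = x⁻¹ * (x * w * x⁻¹) * y := by group
          _ = x⁻¹ * (y * w * y⁻¹) * y := by rw [h8]
          _ = x⁻¹ * y * w := by group
      rw [← mul_assoc]
      exact h9
    · rintro ⟨rfl, rfl, rfl, h⟩
      rw [← hcen', Subgroup.mem_center_iff] at h
      have h7 : MulAut.conj x = MulAut.conj y := by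
        ext w
        rw [MulAut.conj_apply, MulAut.conj_apply]
        have h8 := h w
        calc x * w * x⁻¹ = x * (w * (x⁻¹ * y)) * y⁻¹ := by group
          _ = x * (x⁻¹ * y * w) * y⁻¹ := by rw [h8]
          _ = y * w * y⁻¹ := by group
      unfold tw4
      rw [h7]

theorem center_eq : Subgroup.center FA = Subgroup.zpowers (gd ^ 6) := by
  obtain ⟨P, L, F, -, -, hd, -, -⟩ := frame
  rw [← hd]
  exact @Frame.center_eq _ _ _ _ _ _ L F (TD.tau_triv k1) (TD.exists_moved kw)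

theorem main : ∃ T θ ε : MulAut FA, T (gs 0) = gs 0 * gd ^ 6 ∧ T (gs 1) = gs 1 * gd ^ 6 ∧
    T (gs 2) = gs 2 * (gd ^ 6)⁻¹ ∧ T (gs 3) = gs 3 * (gd ^ 6)⁻¹ ∧
    (∀ i, θ (gs i) = gs (Fin.rev i)) ∧ InvertsGens CoxeterMatrix.F₄ ε ∧ Rel4 T θ ε ∧
    FormMod4 T θ ε (gd ^ 6) ∧ Subgroup.center FA = Subgroup.zpowers (gd ^ 6) ∧
    OutD T θ ε ∧ Splits FA := by
  obtain ⟨T, hT0, hT1, hT2, hT3, hTd⟩ := exists_T
  obtain ⟨θ, hθ, hθθ⟩ := exists_theta
  obtain ⟨ε, hε, hεε⟩ := exists_eps (M := CoxeterMatrix.F₄) M_bd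
  have hR := rel4 hT0 hT1 hT2 hT3 hTd hθ hθθ hε hεε
  have hf := form4 hT0 hT1 hT2 hT3 hTd hθ hθθ hε hεε
  exact ⟨T, θ, ε, hT0, hT1, hT2, hT3, hθ, hε, hR, hf, center_eq, outD_of hR hf,
    splits4_of hR hf⟩

end Pool.Agent.SPH.F4
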