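import Pool.Agent.SPH.F4.Ok
import Pool.Agent.SPH.Idx

/-!
# Project SPH: the generation certificate of type F4
-/

set_option maxRecDepth 10000

namespace Pool.Agent.SPH.F4

/-- the steps -/
def gl : List Gen.Stp := [
  .F 0, .F 43, .F 46, .F 56, .F 57, .F 60, .F 76, .F 77, .F 104, .M 0 56 1, .M 0 77 1,
  .C 1 24 16, .C 1 20 17, .M 0 60 20, .M 57 0 21, .M 24 20 21, .M 57 76 21, .C 20 5 21,
  .C 0 78 21, .C 20 103 21, .M 24 1 22, .C 1 101 22, .C 21 18 45, .M 18 20 48, .M 5 21 56,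
  .C 5 13 56, .M 13 1 57, .C 1 22 59, .M 24 22 62, .C 24 2 68, .M 20 2 71, .C 2 9 71, .M 9 1 76]

theorem gl_run : Gen.run ad.D.N ad.D.K ad.D.le ad.D.tm (ad.D.fx2 3 2)
    0x1000000700a1300480000000001
    0xfacb8000000000000001742226 gl 0
    (CD.ins 0 (ad.gi (0 : Fin 4))) = true := by
  decide +kernel

theorem gl_fin : ad.finc
    0xfacb8000000000000001742226 = true := by
  decide +kernel

end Pool.Agent.SPH.F4
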